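import Pool.Agent.Q115.DT.Lift

/-!
# Strongly irreducible subshifts of domino tilings in dimension at least three
-/

set_option autoImplicit false

namespace Pool.Agent.Results.MP_073e7c_an.StronglyIrreducibleSubshift

/-- For every `d ≥ 3` the space `X_d` of domino tilings of `ℤᵈ` contains a nonempty strongly irreducible subshift `X`.
A tiling is a configuration `x` which assigns to each `v` one of the vectors `± e_i` such that
`x (v + x v) = - x v`. The set `X` of configurations is nonempty, consists of tilings, is closed in the product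
topology, is invariant under all shifts, and there is `k` such that for all `x, y` in `X` and all sets `A, B` at
sup-distance at least `k` from each other some `z` in `X` agrees with `x` on `A` and with `y` on `B`. -/
theorem result : ∀ d : ℕ, 3 ≤ d →
    ∃ X : Set ((Fin d → ℤ) → (Fin d → ℤ)), X.Nonempty ∧
      (∀ x ∈ X, ∀ v, (∃ i : Fin d, x v = Pi.single i 1 ∨ x v = - Pi.single i 1) ∧ x (v + x v) = - x v) ∧
      IsClosed X ∧ (∀ u : Fin d → ℤ, ∀ x ∈ X, (fun v => x (u + v)) ∈ X) ∧
      ∃ k : ℕ, ∀ x ∈ X, ∀ y ∈ X, ∀ A B : Set (Fin d → ℤ), (∀ a ∈ A, ∀ b ∈ B, (k : ℝ) ≤ dist a b) →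
        ∃ z ∈ X, (∀ v ∈ A, z v = x v) ∧ (∀ v ∈ B, z v = y v) :=
  fun d hd => Pool.Agent.Q115.DT.main d hd

end Pool.Agent.Results.MP_073e7c_an.StronglyIrreducibleSubshift
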